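import Pool.Agent.Helper67.RC.Types

/-!
Few residual sets: the form with at most `C √m` classes for infinitely many moduli of a chain.
-/

set_option autoImplicit false

open Finset Filter

namespace Pool.Agent.Helper67.RC

open Pool.Agent.Helper25.RC Pool.Agent.Helper3.RC

theorem Types.mono {A : Set ℕ} {q k k' : ℕ} (h : Types A q k) (hk : k ≤ k') : Types A q k' := by
  obtain ⟨F, hF, hF'⟩ := h
  exact ⟨F, hF.trans hk, hF'⟩

/-- the trivial bound -/
theorem types_trivial (A : Set ℕ) (q : ℕ) : Types A q q := by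
  classical
  refine ⟨(range q).image (res A q), card_image_le.trans (by rw [card_range]), fun r hr => ?_⟩
  refine Or.inr ⟨res A q r, mem_image_of_mem _ (mem_range.2 hr), 0, 0, ?_⟩
  rw [symmDiff_self]
  intro ε hε
  refine Eventually.of_forall fun x => ?_
  have : below (⊥ : Set ℕ) x = ∅ := by
    ext n; rw [mem_below]; simp
  rw [this]
  simp only [card_empty, Nat.cast_zero]
  positivity

/-- a subchain is a chain -/
theorem Chain.comp {m : ℕ → ℕ} (hm : Chain m) {φ : ℕ → ℕ} (hφ : StrictMono φ) :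
    Chain (m ∘ φ) := by
  refine ⟨hm.pos' _, fun j => ?_, fun j => ?_⟩
  · have h1 : φ j < φ (j + 1) := hφ (Nat.lt_succ_self j)
    obtain ⟨d, hd⟩ := Nat.exists_eq_add_of_le h1.le
    show m (φ j) ∣ m (φ (j + 1))
    rw [hd]
    exact hm.dvd_add _ _
  · have h1 : φ j < φ (j + 1) := hφ (Nat.lt_succ_self j)
    obtain ⟨d, hd⟩ := Nat.exists_eq_add_of_le h1.le
    show 2 * m (φ j) ≤ m (φ (j + 1))
    rw [hd]
    refine le_trans ?_ (hm.pow_le (φ j) d)
    have h2 : 1 ≤ d := by omega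
    have h3 : 2 ^ 1 ≤ 2 ^ d := Nat.pow_le_pow_right (by norm_num) h2
    exact Nat.mul_le_mul_right _ (by simpa using h3)

/-- **Few residual sets**, at most `C √m` classes for infinitely many moduli of a chain. -/
theorem types_sqrt {A : Set ℕ} {m : ℕ → ℕ} (hA : ¬ Null A) (hm : Chain m) {C : ℝ}
    (h : ∃ᶠ j in atTop, ∃ k : ℕ, (k : ℝ) ≤ C * √(m j : ℝ) ∧ Types A (m j) k) (g : ℕ) :
    ∃ᶠ n : ℕ in atTop, g ≤ rep A n := by
  classical
  obtain ⟨φ, hφ, hφ'⟩ := Filter.extraction_of_frequently_atTop h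
  choose k hk hkT using hφ'
  set D : ℝ := max C 1 with hD
  have hD1 : 1 ≤ D := le_max_right _ _
  have hD0 : 0 < D := lt_of_lt_of_le one_pos hD1
  have hC := Chain.comp hm hφ
  refine types_unbounded hA hC (c := fun j => max (k j) 1)
    (fun j => (hkT j).mono (le_max_left _ _)) ?_ g
  intro hs
  -- every term is at least `1 / D ^ 2`
  have h1 : ∀ j, 1 / D ^ 2 ≤ ((m ∘ φ) j : ℝ) / ((max (k j) 1 : ℕ) : ℝ) ^ 2 := by
    intro j
    have hm1 : (1 : ℝ) ≤ m (φ j) := by exact_mod_cast hm.pos' (φ j)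
    have h2 : ((max (k j) 1 : ℕ) : ℝ) ≤ D * √(m (φ j) : ℝ) := by
      rw [Nat.cast_max]
      refine max_le ((hk j).trans ?_) ?_
      · gcongr
        exact le_max_left _ _
      · have h3 : (1 : ℝ) ≤ √(m (φ j) : ℝ) := Real.one_le_sqrt.2 hm1
        calc ((1 : ℕ) : ℝ) = 1 * 1 := by norm_num
          _ ≤ D * √(m (φ j) : ℝ) := by gcongr
    have h4 : (0 : ℝ) < ((max (k j) 1 : ℕ) : ℝ) := by
      have : 0 < max (k j) 1 := lt_of_lt_of_le one_pos (le_max_right _ _)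
      exact_mod_cast this
    have h5 : ((max (k j) 1 : ℕ) : ℝ) ^ 2 ≤ D ^ 2 * m (φ j) := by
      calc ((max (k j) 1 : ℕ) : ℝ) ^ 2 ≤ (D * √(m (φ j) : ℝ)) ^ 2 := by gcongr
        _ = D ^ 2 * m (φ j) := by rw [mul_pow, Real.sq_sqrt (by positivity)]
    rw [div_le_div_iff₀ (by positivity) (by positivity), one_mul]
    show ((max (k j) 1 : ℕ) : ℝ) ^ 2 ≤ (m (φ j) : ℝ) * D ^ 2
    linarith
  have h2 := hs.tendsto_atTop_zero
  have h3 : ∀ᶠ j in atTop, ((m ∘ φ) j : ℝ) / ((max (k j) 1 : ℕ) : ℝ) ^ 2 < 1 / D ^ 2 :=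
    h2.eventually_lt_const (by positivity)
  obtain ⟨j, hj⟩ := h3.exists
  exact absurd (h1 j) (not_le.2 hj)

/-- **Finitely many residual sets** up to null sets and shifts, for infinitely many moduli of a
chain. -/
theorem types_finite {A : Set ℕ} {m : ℕ → ℕ} (hA : ¬ Null A) (hm : Chain m) (k : ℕ)
    (h : ∃ᶠ j in atTop, Types A (m j) k) (g : ℕ) : ∃ᶠ n : ℕ in atTop, g ≤ rep A n := by
  refine types_sqrt hA hm (C := k) (h.mono fun j hj => ⟨k, ?_, hj⟩) g
  have h1 : (1 : ℝ) ≤ √(m j : ℝ) := Real.one_le_sqrt.2 (by exact_mod_cast hm.pos' j)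
  calc (k : ℝ) = k * 1 := by ring
    _ ≤ k * √(m j : ℝ) := by gcongr

end Pool.Agent.Helper67.RC
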