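import Pool.Agent.Helper3.RC.Chain

/-!
Few residual sets. If the residual sets `{n : m_j n + r ∈ A}`, `r < m_j`, of a set `A` which is not
null fall into at most `c_j` classes up to null sets and integer shifts, for the moduli of a chain
`m_0 ∣ m_1 ∣ …`, and `∑ m_j / c_j ^ 2 = ∞`, then the number of representations is not bounded.
-/

set_option autoImplicit false

open Finset Filter

namespace Pool.Agent.Helper67.RC

open Pool.Agent.Helper25.RC Pool.Agent.Helper3.RC

/-- the set `X` moved down by `a` -/
def shift (X : Set ℕ) (a : ℕ) : Set ℕ := {n | n + a ∈ X}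

/-- `X` and `Y` are equal up to an integer shift and a null set -/
def Alike (X Y : Set ℕ) : Prop := ∃ a b : ℕ, Null (symmDiff (shift X a) (shift Y b))

/-- the residual sets of `A` modulo `q` which are not null fall into at most `k` classes up to
null sets and integer shifts -/
def Types (A : Set ℕ) (q k : ℕ) : Prop :=
  ∃ F : Finset (Set ℕ), #F ≤ k ∧ ∀ r < q, Null (res A q r) ∨ ∃ S ∈ F, Alike (res A q r) S

theorem null_shift {X : Set ℕ} (h : Null X) (a : ℕ) : Null (shift X a) := by
  have h1 := Null.res h a one_pos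
  have h2 : res X 1 a = shift X a := by
    ext n
    show 1 * n + a ∈ X ↔ n + a ∈ X
    rw [one_mul]
  rwa [h2] at h1

theorem null_of_shift {X : Set ℕ} {a : ℕ} (h : Null (shift X a)) : Null X := by
  intro ε hε
  have h1 := h (ε / 2) (by positivity)
  have h2 : ∀ᶠ x : ℕ in atTop, (a : ℝ) ≤ ε / 2 * √x := by
    have ht : Tendsto (fun x : ℕ => ε / 2 * √(x : ℝ)) atTop atTop :=
      (Real.tendsto_sqrt_atTop.comp tendsto_natCast_atTop_atTop).const_mul_atTop (by positivity)
    exact ht.eventually_ge_atTop _
  filter_upwards [h1, h2] with x hx hx'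
  have h3 : #(below X x) ≤ a + #(below (shift X a) x) := by
    have h4 : below X x ⊆ range a ∪ (below (shift X a) x).image (· + a) := by
      intro n hn
      rw [mem_below] at hn
      rw [mem_union, mem_range, mem_image]
      rcases lt_or_ge n a with h5 | h5
      · exact Or.inl h5
      · refine Or.inr ⟨n - a, ?_, by omega⟩
        rw [mem_below]
        refine ⟨by omega, ?_⟩
        show n - a + a ∈ X
        rw [Nat.sub_add_cancel h5]
        exact hn.2
    calc #(below X x) ≤ #(range a ∪ (below (shift X a) x).image (· + a)) := card_le_card h4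
      _ ≤ #(range a) + #((below (shift X a) x).image (· + a)) := card_union_le _ _
      _ ≤ a + #(below (shift X a) x) := by
          rw [card_range]
          exact Nat.add_le_add_left card_image_le _
  have h4 : (#(below X x) : ℝ) ≤ a + #(below (shift X a) x) := by exact_mod_cast h3
  linarith

theorem shift_shift (X : Set ℕ) (a b : ℕ) : shift (shift X a) b = shift X (a + b) := by
  ext n
  show n + b + a ∈ X ↔ n + (a + b) ∈ X
  rw [add_assoc, add_comm b a]

theorem shift_symmDiff (X Y : Set ℕ) (a : ℕ) :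
    shift (symmDiff X Y) a = symmDiff (shift X a) (shift Y a) := by
  ext n; rfl

theorem Alike.symm {X Y : Set ℕ} (h : Alike X Y) : Alike Y X := by
  obtain ⟨a, b, h⟩ := h
  exact ⟨b, a, h.symmDiff_comm⟩

theorem Alike.trans {X Y Z : Set ℕ} (h : Alike X Y) (h' : Alike Y Z) : Alike X Z := by
  obtain ⟨a, b, h⟩ := h
  obtain ⟨b', c, h'⟩ := h'
  refine ⟨a + b', c + b, ?_⟩
  have h1 := null_shift h b'
  have h2 := null_shift h' b
  rw [shift_symmDiff, shift_shift, shift_shift] at h1 h2
  rw [add_comm b' b] at h2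
  exact h1.trans h2

/-- the set obtained from two residual sets that are alike -/
def common (A : Set ℕ) (m r r' a b : ℕ) : Set ℕ := shift (res A m r) a ∩ shift (res A m r') b

theorem common_not_null {A : Set ℕ} {m r r' a b : ℕ} (hr : ¬ Null (res A m r))
    (h : Null (symmDiff (shift (res A m r) a) (shift (res A m r') b))) :
    ¬ Null (common A m r r' a b) := by
  intro h1
  refine hr (null_of_shift (a := a) ((h1.union h).mono ?_))
  intro n hn
  by_cases h2 : n ∈ shift (res A m r') b
  · exact Or.inl ⟨hn, h2⟩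
  · exact Or.inr (Or.inl ⟨hn, h2⟩)

theorem types_common {A : Set ℕ} {m m' r r' a b k : ℕ} (hm : 0 < m) (hm' : 0 < m')
    (h : Null (symmDiff (shift (res A m r) a) (shift (res A m r') b)))
    (hk : Types A (m * m') k) : Types (common A m r r' a b) m' k := by
  obtain ⟨F, hF, hF'⟩ := hk
  refine ⟨F, hF, fun s _ => ?_⟩
  set w : ℕ := m * (s + a) + r with hw
  have hmm : 0 < m * m' := Nat.mul_pos hm hm'
  have hu : w % (m * m') < m * m' := Nat.mod_lt _ hmm
  -- the residual set of the first factor
  have h1 : res (shift (res A m r) a) m' s = shift (res A (m * m') (w % (m * m'))) (w / (m * m')) := by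
    ext n
    show m * (m' * n + s + a) + r ∈ A ↔ m * m' * (n + w / (m * m')) + w % (m * m') ∈ A
    have h2 := Nat.div_add_mod w (m * m')
    have h3 : m * (m' * n + s + a) + r = m * m' * (n + w / (m * m')) + w % (m * m') := by
      calc m * (m' * n + s + a) + r = m * m' * n + w := by rw [hw]; ring
        _ = m * m' * n + (m * m' * (w / (m * m')) + w % (m * m')) := by rw [h2]
        _ = _ := by ring
    rw [h3]
  have h2 : res (common A m r r' a b) m' s ⊆ res (shift (res A m r) a) m' s :=
    fun n hn => hn.1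
  have h3 : Null (symmDiff (res (common A m r r' a b) m' s) (res (shift (res A m r) a) m' s)) := by
    refine (Null.res h s hm').mono ?_
    rintro n (hn | hn)
    · exact absurd hn.1.1 hn.2
    · exact Or.inl ⟨hn.1, fun h4 => hn.2 ⟨hn.1, h4⟩⟩
  rcases hF' _ hu with h4 | ⟨S, hS, h4⟩
  · left
    exact (null_shift h4 _).mono (h1 ▸ h2)
  · right
    refine ⟨S, hS, Alike.trans (Y := res A (m * m') (w % (m * m'))) ⟨0, w / (m * m'), ?_⟩ h4⟩
    rw [← h1]
    exact h3

theorem rep_common {A : Set ℕ} {m r r' a b : ℕ} (hr : r < m) (hr' : r' < m) (hne : r ≠ r')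
    (n : ℕ) : 2 * rep (common A m r r' a b) n ≤ rep A (m * n + m * (a + b) + r + r') := by
  classical
  have hm : 0 < m := by omega
  set P : Finset (ℕ × ℕ) := {p ∈ antidiagonal n | p.1 ∈ common A m r r' a b ∧
    p.2 ∈ common A m r r' a b} with hP
  set f : ℕ × ℕ → ℕ × ℕ := fun p => (m * (p.1 + a) + r, m * (p.2 + b) + r') with hf
  set g : ℕ × ℕ → ℕ × ℕ := fun p => (m * (p.1 + b) + r', m * (p.2 + a) + r) with hg
  have hfi : Function.Injective f := by
    intro p q hpq
    have h1 := (Prod.mk.inj hpq).1
    have h2 := (Prod.mk.inj hpq).2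
    have h3 : m * (p.1 + a) = m * (q.1 + a) := by omega
    have h4 : m * (p.2 + b) = m * (q.2 + b) := by omega
    have h5 := Nat.eq_of_mul_eq_mul_left hm h3
    have h6 := Nat.eq_of_mul_eq_mul_left hm h4
    exact Prod.ext (by omega) (by omega)
  have hgi : Function.Injective g := by
    intro p q hpq
    have h1 := (Prod.mk.inj hpq).1
    have h2 := (Prod.mk.inj hpq).2
    have h3 : m * (p.1 + b) = m * (q.1 + b) := by omega
    have h4 : m * (p.2 + a) = m * (q.2 + a) := by omega
    have h5 := Nat.eq_of_mul_eq_mul_left hm h3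
    have h6 := Nat.eq_of_mul_eq_mul_left hm h4
    exact Prod.ext (by omega) (by omega)
  have hdis : Disjoint (P.image f) (P.image g) := by
    rw [Finset.disjoint_left]
    intro q h1 h2
    obtain ⟨p, _, rfl⟩ := mem_image.1 h1
    obtain ⟨p', _, h3⟩ := mem_image.1 h2
    have h4 : m * (p'.1 + b) + r' = m * (p.1 + a) + r := (Prod.mk.inj h3).1
    have h5 : (m * (p'.1 + b) + r') % m = (m * (p.1 + a) + r) % m := by rw [h4]
    rw [Nat.mul_add_mod, Nat.mul_add_mod, Nat.mod_eq_of_lt hr, Nat.mod_eq_of_lt hr'] at h5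
    exact hne h5.symm
  have hsub : P.image f ∪ P.image g ⊆
      {p ∈ antidiagonal (m * n + m * (a + b) + r + r') | p.1 ∈ A ∧ p.2 ∈ A} := by
    intro q hq
    rw [mem_filter, HasAntidiagonal.mem_antidiagonal]
    rw [mem_union, mem_image, mem_image] at hq
    rcases hq with ⟨p, hp, rfl⟩ | ⟨p, hp, rfl⟩
    · rw [hP, mem_filter, HasAntidiagonal.mem_antidiagonal] at hp
      obtain ⟨h1, h2, h3⟩ := hp
      refine ⟨?_, h2.1, h3.2⟩
      show m * (p.1 + a) + r + (m * (p.2 + b) + r') = m * n + m * (a + b) + r + r'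
      rw [← h1]; ring
    · rw [hP, mem_filter, HasAntidiagonal.mem_antidiagonal] at hp
      obtain ⟨h1, h2, h3⟩ := hp
      refine ⟨?_, h2.2, h3.1⟩
      show m * (p.1 + b) + r' + (m * (p.2 + a) + r) = m * n + m * (a + b) + r + r'
      rw [← h1]; ring
  calc 2 * rep (common A m r r' a b) n = #(P.image f) + #(P.image g) := by
        rw [card_image_of_injective _ hfi, card_image_of_injective _ hgi, hP]
        unfold rep
        ring
    _ = #(P.image f ∪ P.image g) := (card_union_of_disjoint hdis).symm
    _ ≤ _ := card_le_card hsub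

theorem exists_rep {A : Set ℕ} (hA : ¬ Null A) : ∃ n, 1 ≤ rep A n := by
  classical
  by_contra hcon
  push Not at hcon
  refine hA fun ε hε => Eventually.of_forall fun x => ?_
  have h1 : below A x = ∅ := by
    rw [Finset.eq_empty_iff_forall_notMem]
    intro n hn
    have h2 := hcon (n + n)
    have h3 : 0 < rep A (n + n) := by
      unfold rep
      refine card_pos.2 ⟨(n, n), ?_⟩
      rw [mem_filter, HasAntidiagonal.mem_antidiagonal]
      exact ⟨rfl, (mem_below.1 hn).2, (mem_below.1 hn).2⟩
    omega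
  rw [h1]
  simp only [card_empty, Nat.cast_zero]
  positivity

theorem types_two_pow (t : ℕ) : ∀ {A : Set ℕ} {m c : ℕ → ℕ}, ¬ Null A → Chain m →
    (∀ j, Types A (m j) (c j)) → ¬ Summable (fun j => (m j : ℝ) / (c j : ℝ) ^ 2) →
    ∃ n, 2 ^ t ≤ rep A n := by
  classical
  induction t with
  | zero =>
    intro A m c hA _ _ _
    simpa using exists_rep hA
  | succ t ih =>
    intro A m c hA hm hT hs
    by_contra hcon
    push Not at hcon
    -- mean square
    have hK : ∀ᶠ x : ℕ in atTop, ∑ n ∈ range x, (rep A n : ℝ) ^ 2 ≤ ((2 : ℝ) ^ (t + 1)) ^ 2 * x := by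
      refine Eventually.of_forall fun x => ?_
      calc ∑ n ∈ range x, (rep A n : ℝ) ^ 2 ≤ ∑ _n ∈ range x, ((2 : ℝ) ^ (t + 1)) ^ 2 := by
            refine Finset.sum_le_sum fun n _ => ?_
            have : (rep A n : ℝ) ≤ (2 : ℝ) ^ (t + 1) := by exact_mod_cast (hcon n).le
            gcongr
        _ = ((2 : ℝ) ^ (t + 1)) ^ 2 * x := by
            rw [Finset.sum_const, card_range, nsmul_eq_mul]; ring
    have hsum := chain_summable hA hK hm
    -- a level with fewer classes than residual sets
    obtain ⟨j, hj⟩ : ∃ j, c j < nu A (m j) := by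
      by_contra h
      push Not at h
      refine hs (Summable.of_nonneg_of_le (fun j => by positivity) (fun j => ?_) hsum)
      have h1 : (nu A (m j) : ℝ) ≤ c j := by exact_mod_cast h j
      have h2 : (0 : ℝ) < nu A (m j) := by exact_mod_cast nu_pos hA (hm.pos' j)
      gcongr
    obtain ⟨F, hF, hF'⟩ := hT j
    set R : Finset ℕ := {r ∈ range (m j) | ¬ Null (res A (m j) r)} with hR
    have hS : ∀ r ∈ R, ∃ S ∈ F, Alike (res A (m j) r) S := by
      intro r hr
      rw [hR, mem_filter, mem_range] at hr
      exact (hF' r hr.1).resolve_left hr.2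
    have hcard : #F < #R := lt_of_le_of_lt hF hj
    obtain ⟨S₀, hS₀⟩ : ∃ S : Set ℕ, True := ⟨∅, trivial⟩
    set T : ℕ → Set ℕ := fun r => if h : r ∈ R then (hS r h).choose else S₀ with hTdef
    have hTF : ∀ r ∈ R, T r ∈ F := by
      intro r hr
      simp only [hTdef, dif_pos hr]
      exact (hS r hr).choose_spec.1
    have hTA : ∀ r ∈ R, Alike (res A (m j) r) (T r) := by
      intro r hr
      simp only [hTdef, dif_pos hr]
      exact (hS r hr).choose_spec.2
    obtain ⟨r, hr, r', hr', hne, hTT⟩ := Finset.exists_ne_map_eq_of_card_lt_of_maps_to hcard hTF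
    have hal : Alike (res A (m j) r) (res A (m j) r') := by
      have h1 := hTA r hr
      rw [hTT] at h1
      exact h1.trans (hTA r' hr').symm
    obtain ⟨a, b, hab⟩ := hal
    rw [hR, mem_filter, mem_range] at hr hr'
    have hmj : 0 < m j := hm.pos' j
    have hdv : ∀ i, m j * (m (j + i) / m j) = m (j + i) := fun i =>
      Nat.mul_div_cancel' (hm.dvd_add j i)
    set B := common A (m j) r r' a b with hB
    have hBn : ¬ Null B := common_not_null hr.2 hab
    set m' : ℕ → ℕ := fun i => m (j + i) / m j with hm'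
    have hm'pos : ∀ i, 0 < m' i := fun i =>
      Nat.div_pos (Nat.le_of_dvd (hm.pos' _) (hm.dvd_add j i)) hmj
    have hC : Chain m' := by
      refine ⟨hm'pos 0, fun i => ?_, fun i => ?_⟩
      · obtain ⟨k, hk⟩ := hm.dvd (j + i)
        refine ⟨k, ?_⟩
        refine Nat.eq_of_mul_eq_mul_left hmj ?_
        show m j * (m (j + (i + 1)) / m j) = m j * (m (j + i) / m j * k)
        rw [← mul_assoc, hdv, hdv, ← add_assoc, hk]
      · have h1 := hm.two (j + i)
        refine Nat.le_of_mul_le_mul_left ?_ hmj
        show m j * (2 * (m (j + i) / m j)) ≤ m j * (m (j + (i + 1)) / m j)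
        calc m j * (2 * (m (j + i) / m j)) = 2 * (m j * (m (j + i) / m j)) := by ring
          _ = 2 * m (j + i) := by rw [hdv]
          _ ≤ m (j + i + 1) := h1
          _ = m j * (m (j + (i + 1)) / m j) := by rw [hdv, ← add_assoc]
    have hTB : ∀ i, Types B (m' i) (c (j + i)) := fun i =>
      types_common hmj (hm'pos i) hab (by rw [hdv]; exact hT (j + i))
    have hnB : ¬ Summable (fun i => (m' i : ℝ) / (c (j + i) : ℝ) ^ 2) := by
      intro h
      refine hs ?_
      rw [← summable_nat_add_iff j]
      have h2 : (fun i => (m (i + j) : ℝ) / (c (i + j) : ℝ) ^ 2) =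
          fun i => (m j : ℝ) * ((m' i : ℝ) / (c (j + i) : ℝ) ^ 2) := by
        funext i
        have h3 : (m j : ℝ) * (m' i : ℝ) = m (j + i) := by exact_mod_cast hdv i
        rw [← mul_div_assoc, h3, add_comm i j]
      rw [h2]
      exact h.mul_left _
    obtain ⟨n, hn⟩ := ih hBn hC hTB hnB
    have h1 := rep_common (A := A) (a := a) (b := b) hr.1 hr'.1 hne n
    have h2 := hcon (m j * n + m j * (a + b) + r + r')
    rw [pow_succ] at h2
    rw [← hB] at h1
    omega

/-- **Few residual sets.** -/
theorem types_unbounded {A : Set ℕ} {m c : ℕ → ℕ} (hA : ¬ Null A) (hm : Chain m)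
    (hT : ∀ j, Types A (m j) (c j)) (hs : ¬ Summable (fun j => (m j : ℝ) / (c j : ℝ) ^ 2))
    (g : ℕ) : ∃ᶠ n : ℕ in atTop, g ≤ rep A n := by
  classical
  rw [Filter.frequently_atTop]
  intro N
  obtain ⟨t, ht⟩ := pow_unbounded_of_one_lt (max g (N + 2)) (one_lt_two (α := ℕ))
  obtain ⟨n, hn⟩ := types_two_pow t hA hm hT hs
  have h1 : rep A n ≤ n + 1 := by
    unfold rep
    calc _ ≤ #(antidiagonal n) := card_filter_le _ _
      _ = n + 1 := Finset.Nat.card_antidiagonal n
  have h2 := le_max_left g (N + 2)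
  have h3 := le_max_right g (N + 2)
  exact ⟨n, by omega, by omega⟩

end Pool.Agent.Helper67.RC
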